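import Pool.Agent.H7.GV.Stmts

set_option autoImplicit false

open Finset

namespace Pool.GV7

open Pool.Agent.H23.KT Pool.Agent.H46.KW Pool.KQ Pool.GT7 Pool.GU7

private lemma PAY9_et (p w : ℕ) (hw : w ≤ p) : et p w ≤ 1 := by
  unfold et e1
  have hp : (0 : ℝ) ≤ p := Nat.cast_nonneg p
  have hw0 : (0 : ℝ) ≤ w := Nat.cast_nonneg w
  have h3 : (1 : ℝ) ≤ ((p : ℝ) + 3) ^ 3 := one_le_pow₀ (by linarith)
  have h4 : (1 : ℝ) ≤ ((p + 2).choose (w + 1) : ℝ) := by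
    exact_mod_cast Nat.choose_pos (by omega)
  have h5 : 1 / (16 * ((p : ℝ) + 3) ^ 3) ≤ 1 := by
    rw [div_le_one (by positivity)]
    nlinarith
  have h6 : (1 : ℝ) ≤ 256 * ((p : ℝ) + 3) ^ 3 * ((w : ℝ) + 2) * (p + 2).choose (w + 1) := by
    have h7 : (1 : ℝ) ≤ 256 * ((p : ℝ) + 3) ^ 3 := by linarith
    have h8 : (1 : ℝ) ≤ 256 * ((p : ℝ) + 3) ^ 3 * ((w : ℝ) + 2) :=
      one_le_mul_of_one_le_of_one_le h7 (by linarith)
    exact one_le_mul_of_one_le_of_one_le h8 h4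
  calc 1 / (16 * ((p : ℝ) + 3) ^ 3) / (256 * ((p : ℝ) + 3) ^ 3 * ((w : ℝ) + 2) * (p + 2).choose (w + 1))
      ≤ 1 / (16 * ((p : ℝ) + 3) ^ 3) := div_le_self (by positivity) h6
    _ ≤ 1 := h5

private lemma PAY9_nd {V : Type} [Fintype V] [DecidableEq V] (G : SimpleGraph V) (p w r a : ℕ)
    (hw : w ≤ p) (X : Finset V) (v z : V) (hX : X ⊆ nb G univ v) (hT : 0 ≤ TZ G p r X z) :
    nd G p w r a X z ≤ (kc G (Pool.KR.co G v z) (w + 1) : ℝ) := by
  unfold nd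
  apply max_le (Nat.cast_nonneg _)
  have h1 : (0 : ℝ) ≤ (1 - et p w) *
      ((p + 2).choose (w + 1) * (a : ℝ) ^ (w + 1) / (a : ℝ) ^ (p + 3)) * TZ G p r X z := by
    have h2 := PAY9_et p w hw
    have h3 : (0 : ℝ) ≤ 1 - et p w := by linarith
    positivity
  have h4 : (kc G (nb G X z) (w + 1) : ℝ) ≤ (kc G (Pool.KR.co G v z) (w + 1) : ℝ) := by
    exact_mod_cast kc_mono G (nb_mono (G := G) hX z) (w + 1)
  linarith

private lemma PAY9_card {V : Type} [Fintype V] [DecidableEq V] (G : SimpleGraph V)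
    (v z : V) (A B : Finset V) (hz : z ∈ A) (hv : v ∈ B)
    (h : Pool.KR.co G v z ⊆ A ∪ B) :
    ((Pool.KR.co G v z).card : ℝ) ≤ ((A.card : ℝ) - 1) + ((B.card : ℝ) - 1) := by
  have h1 : Pool.KR.co G v z ⊆ A.erase z ∪ B.erase v := by
    intro x hx
    have h2 := h hx
    have hxz : x ≠ z := by
      rintro rfl
      exact G.loopless.irrefl x ((mem_nb G).1 hx).2
    have hxv : x ≠ v := by
      rintro rfl
      exact G.loopless.irrefl x ((mem_nb G).1 ((mem_nb G).1 hx).1).2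
    rcases mem_union.1 h2 with h3 | h3
    · exact mem_union_left _ (mem_erase.2 ⟨hxz, h3⟩)
    · exact mem_union_right _ (mem_erase.2 ⟨hxv, h3⟩)
  have h2 := (card_le_card h1).trans (card_union_le _ _)
  have h3 := card_erase_add_one hz
  have h4 := card_erase_add_one hv
  have h5 : (((Pool.KR.co G v z).card : ℕ) : ℝ) ≤ ((A.erase z).card : ℝ) + ((B.erase v).card : ℝ) := by
    exact_mod_cast h2
  have h6 : ((A.erase z).card : ℝ) + 1 = A.card := by exact_mod_cast h3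
  have h7 : ((B.erase v).card : ℝ) + 1 = B.card := by exact_mod_cast h4
  linarith

private lemma PAY9_kc {V : Type} [DecidableEq V] (G : SimpleGraph V)
    (W : Finset V) (w : ℕ) (D : ℝ) (hD : (W.card : ℝ) ≤ D) :
    (kc G W (w + 1) : ℝ) ≤ W.card * D ^ w := by
  have h1 := kc_le_sum (G := G) W w W Subset.rfl
  have h2 : kc G (W \ W) (w + 1) = 0 := kc_eq_zero G (by simp)
  rw [h2, add_zero] at h1
  have h3 : ∀ u ∈ W, kc G (nb G W u) w ≤ W.card ^ w := by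
    intro u _
    refine (kc_le_choose G _ w).trans ((Nat.choose_le_pow _ _).trans ?_)
    exact Nat.pow_le_pow_left (card_le_card (nb_subset G W u)) w
  have h4 : kc G W (w + 1) ≤ W.card * W.card ^ w := by
    refine h1.trans ((sum_le_card_nsmul _ _ _ h3).trans ?_)
    rw [smul_eq_mul]
  have h5 : (kc G W (w + 1) : ℝ) ≤ W.card * (W.card : ℝ) ^ w := by exact_mod_cast h4
  refine h5.trans ?_
  have h6 : (W.card : ℝ) ^ w ≤ D ^ w := pow_le_pow_left₀ (Nat.cast_nonneg _) hD w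
  exact mul_le_mul_of_nonneg_left h6 (Nat.cast_nonneg _)

private lemma PAY9_sym {V : Type} [DecidableEq V] (Gd : Finset V) (U : V → Finset V)
    (hs : ∀ v ∈ Gd, ∀ z ∈ Gd, z ∈ U v → v ∈ U z) (f : V → ℝ) :
    ∑ v ∈ Gd, ∑ z ∈ (U v).filter (fun z => z ∈ Gd), f z =
      ∑ v ∈ Gd, ∑ _z ∈ (U v).filter (fun z => z ∈ Gd), f v := by
  refine sum_comm' ?_
  intro x y
  simp only [mem_filter]
  constructor
  · rintro ⟨hx, hy, hyG⟩
    exact ⟨⟨hs x hx y hyG hy, hx⟩, hyG⟩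
  · rintro ⟨⟨hx, hxG⟩, hyG⟩
    exact ⟨hxG, hs y hyG x hxG hx, hyG⟩

private lemma PAY9_row {V : Type} [DecidableEq V] (Gd : Finset V) (A : Finset V) :
    ∑ _z ∈ A.filter (fun z => z ∈ Gd), ((A.card : ℝ) - 1) ≤ 2 * (A.card.choose 2 : ℝ) := by
  rw [sum_const, nsmul_eq_mul, Nat.cast_choose_two]
  have h1 : (((A.filter (fun z => z ∈ Gd)).card : ℕ) : ℝ) ≤ A.card := by
    exact_mod_cast card_filter_le _ _
  have h0 : (0 : ℝ) ≤ (((A.filter (fun z => z ∈ Gd)).card : ℕ) : ℝ) := Nat.cast_nonneg _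
  by_cases hA : A.card = 0
  · have h2 : (((A.filter (fun z => z ∈ Gd)).card : ℕ) : ℝ) = 0 := by
      rw [hA] at h1
      push_cast at h1
      linarith
    rw [h2, hA]
    simp
  · have h3 : (1 : ℝ) ≤ A.card := by
      exact_mod_cast Nat.one_le_iff_ne_zero.2 hA
    nlinarith

theorem PAY9_thm : PAY9Stmt := by
  intro p w r hP C hC
  refine ⟨⌈4 * (2 * C) ^ w⌉₊ + 1, fun a ha V _ _ G Gd P U hG hT hE => ?_⟩
  have ha1 : (1 : ℝ) ≤ a := by
    have : 1 ≤ a := by omega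
    exact_mod_cast this
  have ha4 : 4 * (2 * C) ^ w ≤ (a : ℝ) := by
    have h1 : 4 * (2 * C) ^ w ≤ (⌈4 * (2 * C) ^ w⌉₊ : ℝ) := Nat.le_ceil _
    have h2 : ((⌈4 * (2 * C) ^ w⌉₊ : ℕ) : ℝ) ≤ a := by
      have : ⌈4 * (2 * C) ^ w⌉₊ ≤ a := by omega
      exact_mod_cast this
    linarith
  have hD : (0 : ℝ) ≤ (2 * C) ^ w := by positivity
  have h1 : ∀ v ∈ Gd, ∀ z ∈ (U v).filter (fun z => z ∈ Gd), nd G p w r a (un (P v)) z ≤
      (((U v).card : ℝ) - 1) * (2 * C) ^ w + (((U z).card : ℝ) - 1) * (2 * C) ^ w := by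
    intro v hv z hz
    obtain ⟨hz, hzG⟩ := mem_filter.1 hz
    obtain ⟨h2, h3⟩ := hE v hv z hzG hz
    have h4 := PAY9_nd G p w r a hP.wp (un (P v)) v z (hG v hv).1 (hT v hv z hz)
    have h5 := PAY9_card G v z (U v) (U z) hz h3 h2
    have h6 : ((Pool.KR.co G v z).card : ℝ) ≤ 2 * C := by
      have := (hG v hv).2
      have := (hG z hzG).2
      linarith
    have h7 := PAY9_kc G (Pool.KR.co G v z) w (2 * C) h6
    calc nd G p w r a (un (P v)) z ≤ ((Pool.KR.co G v z).card : ℝ) * (2 * C) ^ w := h4.trans h7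
      _ ≤ ((((U v).card : ℝ) - 1) + (((U z).card : ℝ) - 1)) * (2 * C) ^ w :=
          mul_le_mul_of_nonneg_right h5 hD
      _ = _ := by ring
  have h2 : ∑ v ∈ Gd, ∑ z ∈ (U v).filter (fun z => z ∈ Gd), nd G p w r a (un (P v)) z ≤
      ∑ v ∈ Gd, ∑ z ∈ (U v).filter (fun z => z ∈ Gd),
        ((((U v).card : ℝ) - 1) * (2 * C) ^ w + (((U z).card : ℝ) - 1) * (2 * C) ^ w) :=
    sum_le_sum fun v hv => sum_le_sum fun z hz => h1 v hv z hz
  refine h2.trans ?_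
  simp_rw [sum_add_distrib]
  rw [PAY9_sym Gd U (fun v hv z hz hzv => (hE v hv z hz hzv).2)
    (fun z => (((U z).card : ℝ) - 1) * (2 * C) ^ w), ← sum_add_distrib]
  refine sum_le_sum fun v hv => ?_
  have h3 := PAY9_row Gd (U v)
  rw [sum_const, nsmul_eq_mul] at h3
  rw [sum_const, nsmul_eq_mul]
  have h0 : (0 : ℝ) ≤ ((U v).card.choose 2 : ℝ) := Nat.cast_nonneg _
  have hch : (1 : ℝ) ≤ ((p + 1).choose (w + 1) : ℝ) := by
    have := hP.wp
    exact_mod_cast Nat.choose_pos (by omega)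
  have h5 : 4 * (2 * C) ^ w ≤ (2 * ((p + 1).choose (w + 1) : ℝ) - 1) * (a : ℝ) ^ w := by
    have hw := hP.w1
    have h6 : (a : ℝ) ≤ (a : ℝ) ^ w := le_self_pow₀ ha1 (by omega)
    have h7 : (0 : ℝ) ≤ (a : ℝ) ^ w := by positivity
    nlinarith
  calc (((U v).filter (fun z => z ∈ Gd)).card : ℝ) * ((((U v).card : ℝ) - 1) * (2 * C) ^ w) +
        (((U v).filter (fun z => z ∈ Gd)).card : ℝ) * ((((U v).card : ℝ) - 1) * (2 * C) ^ w)
      = 2 * (2 * C) ^ w * ((((U v).filter (fun z => z ∈ Gd)).card : ℝ) *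
          (((U v).card : ℝ) - 1)) := by ring
    _ ≤ 2 * (2 * C) ^ w * (2 * ((U v).card.choose 2 : ℝ)) :=
        mul_le_mul_of_nonneg_left h3 (by positivity)
    _ = 4 * (2 * C) ^ w * ((U v).card.choose 2 : ℝ) := by ring
    _ ≤ (2 * ((p + 1).choose (w + 1) : ℝ) - 1) * (a : ℝ) ^ w * ((U v).card.choose 2 : ℝ) :=
        mul_le_mul_of_nonneg_right h5 h0
    _ = _ := by ring

end Pool.GV7
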